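import Pool.Agent.N967.P.PQ
import Pool.Agent.N967.Jj

set_option autoImplicit false

/-!
# Baez-Duarte's distance for L-functions with poles on the line re s = 1: the inverse Laplace transform of the error
(port of N967/G/Jj.lean, helper803)
-/

namespace Pool.Agent.N967.P.Jj

open Complex MeasureTheory Filter Topology Set
open Pool.Agent.N967.G (KR KerB S_real S_kern S_opt S_lf S_kerL S_sh)
open Pool.Agent.N967.JjAux hiding FF G0 FF_diff G0_diff G0_line deriv_zero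

/-- `(1 - L(s) A(s)) P(s) / (Q(s) s)` -/
noncomputable def G0 (D : Dat) (N : ℕ) (a : ℕ → ℂ) (s : ℂ) : ℂ :=
  (D.P s - D.Zs s * DP N a s) / (D.Q s * s)

lemma G0_diff {D : Dat} (hb : Base D) (N : ℕ) (a : ℕ → ℂ) {s : ℂ} (hs : 0 < s.re) :
    DifferentiableAt ℂ (G0 D N a) s := by
  unfold G0
  have h1 : DifferentiableAt ℂ D.Zs s := hb.diff s hs
  have h2 : DifferentiableAt ℂ (DP N a) s := DP_differentiable N a s
  have h3 : DifferentiableAt ℂ D.P s := P_diff s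
  have h4 : DifferentiableAt ℂ D.Q s := Q_diff s
  refine DifferentiableAt.div (by fun_prop) (by fun_prop) ?_
  exact mul_ne_zero (Q_ne hs) (ne_zero_of_re hs)

lemma G0_line (D : Dat) (N : ℕ) (a : ℕ → ℂ) (t : ℝ) :
    ‖G0 D N a (1 / 2 + t * I)‖ ^ 2 = D.ig N a t := by
  unfold G0 Dat.ig Dat.L
  have hre : (1 / 2 + (t : ℂ) * I).re = 1 / 2 := by simp
  have h0' : D.P (1 / 2 + (t : ℂ) * I) ≠ 0 := P_ne (by rw [hre]; norm_num)
  have h2 : D.P (1 / 2 + (t : ℂ) * I) - D.Zs (1 / 2 + t * I) * DP N a (1 / 2 + t * I) =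
      D.P (1 / 2 + (t : ℂ) * I) *
        (1 - D.Zs (1 / 2 + t * I) / D.P (1 / 2 + (t : ℂ) * I) *
          DP N a (1 / 2 + t * I)) := by
    generalize D.P (1 / 2 + (t : ℂ) * I) = q at h0' ⊢
    generalize D.Zs (1 / 2 + t * I) = Z
    generalize DP N a (1 / 2 + t * I) = P
    field_simp
  have hp : (0:ℝ) < 1 / 4 + t ^ 2 := by positivity
  have hP : 0 < ‖D.P (1 / 2 + (t : ℂ) * I)‖ := norm_pos_iff.2 h0'
  rw [h2, norm_div, norm_mul, norm_mul, ← P_half hre, div_pow, mul_pow, mul_pow, norm_half_sq]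
  generalize ‖1 - D.Zs (1 / 2 + t * I) / D.P (1 / 2 + (t : ℂ) * I) *
    DP N a (1 / 2 + t * I)‖ ^ 2 = Y
  generalize 1 / 4 + t ^ 2 = q at hp ⊢
  generalize ‖D.P (1 / 2 + (t : ℂ) * I)‖ = x at hP ⊢
  field_simp

lemma quarter_le {s : ℂ} (hs : 1 / 4 ≤ s.re) : 1 / 4 ≤ ‖s‖ := by
  have := (le_abs_self _).trans (Complex.abs_re_le_norm s)
  linarith

/-- the growth of the function `G0` -/
lemma G0_growth (D : Dat) {Cz : ℝ} {kz : ℕ} (hCz : 0 < Cz)
    (hz : ∀ s : ℂ, 1 / 4 ≤ s.re → ‖D.Zs s‖ ≤ Cz * (1 + ‖s‖) ^ kz) (N : ℕ) (a : ℕ → ℂ) {k : ℕ}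
    {M : ℝ} (hM : 0 ≤ M) {s : ℂ} (hs : 1 / 4 ≤ s.re) (hD : ‖DP N a s‖ ≤ M * (1 + ‖s‖) ^ k) :
    ‖G0 D N a s‖ ≤ 4 ^ (D.p + 1) * (D.c + Cz * M) * (1 + ‖s‖) ^ (kz + k + D.p) := by
  have h1 := quarter_le hs
  have hx : 1 ≤ 1 + ‖s‖ := by linarith [norm_nonneg s]
  have hc := c_pos (D := D)
  have h5 : (1 / 4 : ℝ) ^ (D.p + 1) ≤ ‖D.Q s‖ * ‖s‖ := by
    rw [pow_succ]
    exact mul_le_mul (Q_ge (by norm_num) hs) h1 (by norm_num) (norm_nonneg _)
  have h6 : 0 < ‖D.Q s‖ * ‖s‖ := lt_of_lt_of_le (by positivity) h5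
  unfold G0
  rw [norm_div, norm_mul, div_le_iff₀ h6]
  have h7 : ‖D.P s - D.Zs s * DP N a s‖ ≤ (D.c + Cz * M) * (1 + ‖s‖) ^ (kz + k + D.p) := by
    calc ‖D.P s - D.Zs s * DP N a s‖ ≤ ‖D.P s‖ + ‖D.Zs s * DP N a s‖ :=
          norm_sub_le _ _
      _ = ‖D.P s‖ + ‖D.Zs s‖ * ‖DP N a s‖ := by rw [norm_mul]
      _ ≤ D.c * (1 + ‖s‖) ^ D.p + (Cz * (1 + ‖s‖) ^ kz) * (M * (1 + ‖s‖) ^ k) := by
          have := hz s hs
          have h4 := P_le (D := D) s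
          gcongr
      _ = D.c * (1 + ‖s‖) ^ D.p + Cz * M * (1 + ‖s‖) ^ (kz + k) := by ring
      _ ≤ D.c * (1 + ‖s‖) ^ (kz + k + D.p) + Cz * M * (1 + ‖s‖) ^ (kz + k + D.p) := by
          have e1 : (1 + ‖s‖) ^ D.p ≤ (1 + ‖s‖) ^ (kz + k + D.p) :=
            pow_le_pow_right₀ hx (by omega)
          have e2 : (1 + ‖s‖) ^ (kz + k) ≤ (1 + ‖s‖) ^ (kz + k + D.p) :=
            pow_le_pow_right₀ hx (by omega)
          have e3 : 0 ≤ Cz * M := by positivity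
          exact add_le_add (mul_le_mul_of_nonneg_left e1 hc.le)
            (mul_le_mul_of_nonneg_left e2 e3)
      _ = _ := by ring
  have h8 : 0 ≤ (D.c + Cz * M) * (1 + ‖s‖) ^ (kz + k + D.p) := by positivity
  calc ‖D.P s - D.Zs s * DP N a s‖ ≤ (D.c + Cz * M) * (1 + ‖s‖) ^ (kz + k + D.p) := h7
    _ = 4 ^ (D.p + 1) * ((D.c + Cz * M) * (1 + ‖s‖) ^ (kz + k + D.p)) * (1 / 4) ^ (D.p + 1) := by
        have : (4 : ℝ) ^ (D.p + 1) * (1 / 4) ^ (D.p + 1) = 1 := by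
          rw [← mul_pow]
          norm_num
        linear_combination -((D.c + Cz * M) * (1 + ‖s‖) ^ (kz + k + D.p)) * this
    _ ≤ 4 ^ (D.p + 1) * ((D.c + Cz * M) * (1 + ‖s‖) ^ (kz + k + D.p)) * (‖D.Q s‖ * ‖s‖) :=
        mul_le_mul_of_nonneg_left h5 (by positivity)
    _ = _ := by ring

/-! ### the weight -/

lemma gw_norm2 {c0 : ℝ} (hc : 1 ≤ c0) (K : ℕ) {s : ℂ} (hs : 1 / 4 ≤ s.re) :
    ‖gw c0 K s‖ ≤ (4 * c0) ^ K * ((1 + ‖s‖) ^ K)⁻¹ := by
  have h1 := (le_abs_self _).trans (Complex.abs_re_le_norm ((c0 : ℂ) + (s - 1 / 2)))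
  have h2 := Complex.abs_im_le_norm ((c0 : ℂ) + (s - 1 / 2))
  have h3 : ((c0 : ℂ) + (s - 1 / 2)).re = c0 + (s.re - 1 / 2) := by simp
  have h4 : ((c0 : ℂ) + (s - 1 / 2)).im = s.im := by simp
  rw [h3] at h1
  rw [h4] at h2
  have h5 := Complex.norm_le_abs_re_add_abs_im s
  rw [abs_of_pos (show 0 < s.re by linarith)] at h5
  have h6 : (1 + ‖s‖) / 4 ≤ ‖(c0 : ℂ) + (s - 1 / 2)‖ := by linarith
  have h0 : 0 < 1 + ‖s‖ := by positivity
  have hc0 : 0 ≤ c0 := by linarith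
  rw [gw, norm_pow, ← div_eq_mul_inv, ← div_pow, norm_div, Complex.norm_real,
    Real.norm_of_nonneg hc0]
  refine pow_le_pow_left₀ (by positivity) ?_ K
  calc c0 / ‖(c0 : ℂ) + (s - 1 / 2)‖ ≤ c0 / ((1 + ‖s‖) / 4) := by gcongr
    _ = _ := by field_simp

/-- the integrand -/
noncomputable def FF (D : Dat) (N : ℕ) (a : ℕ → ℂ) (c0 : ℝ) (K : ℕ) (s : ℂ) : ℂ :=
  G0 D N a s * gw c0 K s

lemma FF_diff {D : Dat} (hb : Base D) (N : ℕ) (a : ℕ → ℂ) {c0 : ℝ} (hc : 1 ≤ c0) (K : ℕ) {s : ℂ}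
    (hs : 0 < s.re) : DifferentiableAt ℂ (FF D N a c0 K) s :=
  (G0_diff hb N a hs).mul (gw_diff hc K hs)

lemma sq_dc (s : ℂ) : ((1 + ‖s‖) ^ 2)⁻¹ ≤ dc s.im := by
  rw [dc_eq]
  have := Complex.abs_im_le_norm s
  gcongr

/-- the decay of the integrand -/
lemma FF_decay (D : Dat) (N : ℕ) (a : ℕ → ℂ) {c0 : ℝ} (hc : 1 ≤ c0) {m : ℕ} {B : ℝ} (hB : 0 ≤ B)
    {s : ℂ} (hs : 1 / 4 ≤ s.re) (h : ‖G0 D N a s‖ ≤ B * (1 + ‖s‖) ^ m) :
    ‖FF D N a c0 (m + 2) s‖ ≤ (B * (4 * c0) ^ (m + 2)) * ((1 + ‖s‖) ^ 2)⁻¹ := by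
  have h0 : 0 < 1 + ‖s‖ := by positivity
  have h1 := gw_norm2 hc (m + 2) hs
  rw [FF, norm_mul]
  calc ‖G0 D N a s‖ * ‖gw c0 (m + 2) s‖ ≤ (B * (1 + ‖s‖) ^ m) *
        ((4 * c0) ^ (m + 2) * ((1 + ‖s‖) ^ (m + 2))⁻¹) :=
        mul_le_mul h h1 (norm_nonneg _) (by positivity)
    _ = _ := by
        rw [pow_add (1 + ‖s‖) m 2]
        field_simp

/-! ### the zeros -/

lemma deriv_zero {D : Dat} (hb : Base D) (N : ℕ) (a : ℕ → ℂ) {c0 : ℝ} (hc : 1 ≤ c0) (K : ℕ)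
    {ρ : ℂ} (hρ : D.IsZ ρ) {k : ℕ} (hk : k < D.mu ρ) :
    iteratedDeriv k (FF D N a c0 K) ρ =
      iteratedDeriv k (fun s => D.P s / (D.Q s * s) * gw c0 K s) ρ := by
  have hre : 0 < ρ.re := by rw [hρ.2]; norm_num
  have hop : IsOpen {z : ℂ | 0 < z.re} := isOpen_lt continuous_const Complex.continuous_re
  have han : ∀ {f : ℂ → ℂ}, (∀ s : ℂ, 0 < s.re → DifferentiableAt ℂ f s) → AnalyticAt ℂ f ρ := by
    intro f hf
    exact (DifferentiableOn.analyticOnNhd (fun z hz => (hf z hz).differentiableWithinAt) hop) ρ hre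
  set E : ℂ → ℂ := fun s => D.P s / (D.Q s * s) * gw c0 K s with hE
  set W : ℂ → ℂ := fun s => DP N a s / (D.Q s * s) * gw c0 K s with hW
  have hEd : ∀ s : ℂ, 0 < s.re → DifferentiableAt ℂ E s := by
    intro s hs
    have h1 : DifferentiableAt ℂ (gw c0 K) s := gw_diff hc K hs
    have hP : DifferentiableAt ℂ D.P s := P_diff s
    have hQ : DifferentiableAt ℂ D.Q s := Q_diff s
    have h2 : DifferentiableAt ℂ (fun s : ℂ => D.P s / (D.Q s * s)) s :=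
      DifferentiableAt.div (by fun_prop) (by fun_prop) (mul_ne_zero (Q_ne hs) (ne_zero_of_re hs))
    exact h2.mul h1
  have hWd : ∀ s : ℂ, 0 < s.re → DifferentiableAt ℂ W s := by
    intro s hs
    have h1 : DifferentiableAt ℂ (gw c0 K) s := gw_diff hc K hs
    have h3 : DifferentiableAt ℂ (DP N a) s := DP_differentiable N a s
    have hQ : DifferentiableAt ℂ D.Q s := Q_diff s
    have h2 : DifferentiableAt ℂ (fun s : ℂ => DP N a s / (D.Q s * s)) s :=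
      DifferentiableAt.div (by fun_prop) (by fun_prop) (mul_ne_zero (Q_ne hs) (ne_zero_of_re hs))
    exact h2.mul h1
  have hFd : AnalyticAt ℂ (FF D N a c0 K) ρ := han fun s hs => FF_diff hb N a hc K hs
  have hEq : (fun s => E s - FF D N a c0 K s) = D.Zs * W := by
    ext s
    rw [Pi.mul_apply, hE, hW, FF, G0]
    ring
  have hζ : AnalyticAt ℂ D.Zs ρ := han fun s hs => hb.diff s hs
  have hord : (D.mu ρ : ℕ∞) ≤ analyticOrderAt (fun s => E s - FF D N a c0 K s) ρ := by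
    rw [hEq, analyticOrderAt_mul hζ (han hWd)]
    refine le_trans ?_ le_self_add
    exact ENat.natCast_toNat_le_self _
  have hsub : AnalyticAt ℂ (fun s => E s - FF D N a c0 K s) ρ := (han hEd).sub hFd
  have h1 := (natCast_le_analyticOrderAt_iff_iteratedDeriv_eq_zero hsub).1 hord k hk
  have h2 : iteratedDeriv k (fun s => E s - FF D N a c0 K s) ρ =
      iteratedDeriv k E ρ - iteratedDeriv k (FF D N a c0 K) ρ := by
    have := iteratedDeriv_sub (n := k) (x := ρ) (han hEd).contDiffAt hFd.contDiffAt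
    exact this
  rw [h2] at h1
  exact (sub_eq_zero.1 h1).symm

end Pool.Agent.N967.P.Jj

namespace Pool.Agent.N967.P

open Complex MeasureTheory Filter Topology Set
open Pool.Agent.N967.G (KR KerB S_real S_kern S_opt S_lf S_kerL S_sh)
open Pool.Agent.N967.JjAux hiding FF G0 FF_diff G0_diff G0_line deriv_zero

open Pool.Agent.N967.P.Jj in
/-- the inverse Laplace transform of the error -/
theorem jj {D : Dat} (h : Rp D) (hg : S_grow D) (hi : S_int D) (hs : Pool.Agent.N967.S_shift) :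
    S_jj D := by
  intro δ hδ hδ'
  have hb := h.base
  have hcp := c_pos (D := D)
  obtain ⟨Cz, kz, hCz, hz⟩ := hb.growth
  obtain ⟨Cg, k, hCg, hgr⟩ := hg δ hδ (by linarith)
  set m := kz + k + D.p with hm
  refine ⟨m + 2, fun c0 hc => ?_⟩
  have hc0 : 0 < c0 := by linarith
  have hdc : 0 < ∫ y, dc y := by
    rw [integral_pos_iff_support_of_nonneg (fun y => (dc_pos y).le) dc_int]
    have : Function.support dc = univ := by
      ext y
      simp [(dc_pos y).ne']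
    rw [this]
    simp
  set C : ℝ := 4 ^ (D.p + 1) * (D.c + Cz * Cg) * (4 * c0) ^ (m + 2) with hC
  have hC0 : 0 < C := by positivity
  refine ⟨C * ∫ y, dc y, by positivity, fun N a hN he => ?_⟩
  -- the bound for all `s`
  set M := ∑ n ∈ Finset.Icc 1 N, ‖a n‖ with hM
  have hM0 : 0 ≤ M := Finset.sum_nonneg fun n _ => norm_nonneg _
  have hall : ∀ s : ℂ, 1 / 4 ≤ s.re → ‖FF D N a c0 (m + 2) s‖ ≤
      (4 ^ (D.p + 1) * (D.c + Cz * M) * (4 * c0) ^ (m + 2)) * ((1 + ‖s‖) ^ 2)⁻¹ := by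
    intro s hs'
    refine FF_decay D N a hc (by positivity) hs' ?_
    refine G0_growth D hCz hz N a hM0 hs' ?_
    refine (DP_norm_le N a (by linarith)).trans ?_
    exact le_mul_of_one_le_right hM0 (one_le_pow₀ (by linarith [norm_nonneg s]))
  set B := 4 ^ (D.p + 1) * (D.c + Cz * M) * (4 * c0) ^ (m + 2) with hBdef
  have hB0 : 0 ≤ B := by positivity
  have hB : ∀ z : ℂ, 1 / 4 ≤ z.re → ‖FF D N a c0 (m + 2) z‖ ≤ B * dc z.im := fun z hz' =>
    (hall z hz').trans (mul_le_mul_of_nonneg_left (sq_dc z) hB0)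
  -- the bound on the line
  have hCb : ∀ z : ℂ, z.re = 1 / 4 → ‖FF D N a c0 (m + 2) z‖ ≤
      (C * (N : ℝ) ^ (1 / 4 + δ)) * dc z.im := by
    intro z hz'
    have hN1 : (1:ℝ) ≤ N := by exact_mod_cast (by omega : 1 ≤ N)
    have h1 := hgr N a (by omega) he z (by rw [hz']; linarith)
    have e1 : (1:ℝ) / 2 + δ - z.re = 1 / 4 + δ := by rw [hz']; ring
    rw [e1] at h1
    set Q := (N : ℝ) ^ (1 / 4 + δ) with hQ
    have hQ1 : 1 ≤ Q := Real.one_le_rpow hN1 (by linarith)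
    have h2 := G0_growth D hCz hz N a (k := k) (M := Cg * Q) (by positivity) (s := z)
      (by rw [hz']) (by
        refine h1.trans (le_of_eq ?_)
        ring)
    have h3 : ‖G0 D N a z‖ ≤ (4 ^ (D.p + 1) * (D.c + Cz * Cg) * Q) * (1 + ‖z‖) ^ m := by
      refine h2.trans ?_
      have h4 : D.c + Cz * (Cg * Q) ≤ (D.c + Cz * Cg) * Q := by
        nlinarith [mul_pos hCz hCg, mul_le_mul_of_nonneg_left hQ1 hcp.le]
      calc 4 ^ (D.p + 1) * (D.c + Cz * (Cg * Q)) * (1 + ‖z‖) ^ m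
          ≤ 4 ^ (D.p + 1) * ((D.c + Cz * Cg) * Q) * (1 + ‖z‖) ^ m := by gcongr
        _ = _ := by ring
    have h5 := FF_decay D N a hc (m := m) (by positivity) (s := z) (by rw [hz']) h3
    calc ‖FF D N a c0 (m + 2) z‖ ≤ _ := h5
      _ ≤ (4 ^ (D.p + 1) * (D.c + Cz * Cg) * Q * (4 * c0) ^ (m + 2)) * dc z.im :=
          mul_le_mul_of_nonneg_left (sq_dc z) (by positivity)
      _ = _ := by rw [hC]; ring
  have hd : ∀ z : ℂ, 1 / 4 ≤ z.re → DifferentiableAt ℂ (FF D N a c0 (m + 2)) z := fun z hz' =>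
    FF_diff hb N a hc (m + 2) (by linarith)
  have hlim : ∀ y : ℝ, Tendsto (fun b : ℝ => FF D N a c0 (m + 2) (b + y * I)) atTop (𝓝 0) := by
    intro y
    rw [tendsto_zero_iff_norm_tendsto_zero]
    have h1 : Tendsto (fun b : ℝ => B * (b⁻¹)) atTop (𝓝 0) := by
      simpa using tendsto_inv_atTop_zero.const_mul B
    refine squeeze_zero' (Eventually.of_forall fun b => norm_nonneg _) ?_ h1
    filter_upwards [eventually_ge_atTop 1] with b hb'
    have hb0 : 0 < b := by linarith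
    have h2 := hall (b + y * I) (by simp; linarith)
    refine h2.trans (mul_le_mul_of_nonneg_left ?_ hB0)
    have h3 : b ≤ ‖(b : ℂ) + y * I‖ := by
      have := (le_abs_self _).trans (Complex.abs_re_le_norm ((b : ℂ) + y * I))
      simpa using this
    refine inv_anti₀ hb0 ?_
    nlinarith
  have hneg : ∀ v, v ≤ 0 → JJ (FF D N a c0 (m + 2)) v = 0 := fun v hv =>
    JJ_neg hs hB0 hd hB hlim hv
  have hpos : ∀ v, 0 ≤ v → ‖JJ (FF D N a c0 (m + 2)) v‖ ≤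
      ((C * (N : ℝ) ^ (1 / 4 + δ)) * ∫ y, dc y) * Real.exp (-(v / 4)) := fun v hv =>
    JJ_pos hs hB0 hd hB hCb hv
  obtain ⟨h1, h2, h3⟩ := JJ_planch hd hB
  refine ⟨JJ (FF D N a c0 (m + 2)), h1.measurable, hneg, fun v hv => ?_, h2, ?_,
    fun ρ hρ k hk => ?_⟩
  · calc ‖JJ (FF D N a c0 (m + 2)) v‖ ≤ _ := hpos v hv
      _ = _ := by ring
  · rw [h3, Dat.err]
    refine mul_le_mul_of_nonneg_left ?_ (by positivity)
    refine integral_mono_of_nonneg (Eventually.of_forall fun t => by positivity) (hi N a)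
      (Eventually.of_forall fun t => ?_)
    simp only
    rw [FF, norm_mul, mul_pow, G0_line]
    have h4 : ‖gw c0 (m + 2) (1 / 2 + t * I)‖ ^ 2 ≤ 1 :=
      pow_le_one₀ (norm_nonneg _) (gw_half hc (m + 2) t)
    have h5 : 0 ≤ D.ig N a t := by unfold Dat.ig; positivity
    exact mul_le_of_le_one_right h5 h4
  · have h5 : ρ = 1 / 2 + (ρ.im : ℂ) * I := by
      apply Complex.ext
      · simp [hρ.2]
      · simp
    rw [inversion hd hB hneg hpos k ρ.im, ← h5]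
    exact deriv_zero hb N a hc (m + 2) hρ hk

end Pool.Agent.N967.P
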